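import Pool.Agent.W5h84.PR.Top

/-!
# Finite quotients of `Out (F_n)` and the coverings with group of exponent two

Let `F` be the free group of rank `n` and let `F²` be the subgroup generated by the squares; it is
the intersection of the kernels of the `2^n` homomorphisms `χ : F → {1, -1}`, and `F / F²` is
elementary abelian of order `2^n`. Mathlib's `Γ.lowerCentralSeries c` is `γ_{c+1} Γ`, where
`γ_1 Γ = Γ` and `γ_{i+1} Γ = [γ_i Γ, Γ]`.

Theorem. Let `n ≥ 4` and `c ≥ 0`. Every subgroup of finite index of `Out (F)` which contains the
kernel of the action on `F / γ_{c+1} (F²)` contains the kernel of `Out (F) → Out (F / K)`, for some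
characteristic subgroup `K` of finite index of `F`.

So the answer to the question is positive for all finite quotients of `Out (F_n)`, `n ≥ 4`, which
factor through the image of `Out (F_n)` in `Out (F_n / γ_c (F²))` for some `c`. For `c = 2` these
are the quotients given by the actions on the homology of the coverings of a graph with the deck
groups of exponent two, the Prym representations of order two.

Proof. By the results on virtually nilpotent quotients in `Pool.Agent.R569.CS` (the file
`VirtuallyNilpotentQuotients`) it suffices to show that a normal subgroup `V` of finite index of
`Aut (F)` which contains the automorphisms acting trivially on `F / F²` and on `F² / [F², F²]`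
is a congruence subgroup. By transfer, `Hom (F², ℚ)` is the direct sum of the spaces of the
restrictions to `F²` of the derivations `d : F → ℚ`, `d (xy) = d (x) + χ (x) d (y)`, one for each
of the `2^n` characters `χ`. The automorphisms which act trivially on `F / F²` act on the part of
`χ` by matrices in `GL_r(ℤ)`, where `r = n` for `χ = 1` and `r = n - 1 ≥ 3` otherwise; after a
change of basis `χ` is trivial on `r` elements of the basis of `F`. Let `x_i, x_j` be two of them.
There is a word `w` without `x_i` for which the automorphism `x_i ↦ x_i w` acts on the part of `χ`
by the transvection with the entry `2^n`, and trivially on the parts of all characters `χ'` which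
differ from `χ` on an element of the basis different from `x_i`. The commutator of two such
automorphisms, for the indices `(i, k)` and `(k, j)`, acts on the part of `χ` by the transvection
with the entry `4^n` at `(i, j)`, and trivially on all other parts. If `M` is the index of `V`, then
`V` contains the `M`-th powers, and it is normalised by the automorphisms `x_i ↦ x_i x_j`. By the
theorem of Bass, Lazard, Serre and Mennicke (proved in `Pool.Agent.W5h84.MT.Main`: a subgroup of
`SL_r(ℤ)`, `r ≥ 3`, normalised by the elementary matrices and containing those with entries
divisible by `m`, contains all matrices congruent to `1` modulo `m`, for `4 ∣ m`, `m ≠ 0`) the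
elements of `V` which act trivially on all other parts realise on the part of `χ` all matrices
congruent to `1` modulo `4^n M`. So an automorphism which acts trivially on `F / F²` and on all
derivations modulo `4^n M` differs from an element of `V` by an automorphism acting trivially on all
parts, thus trivially on `F² / [F², F²]`.
-/

set_option autoImplicit false

namespace Pool.Agent.Results.MP_181555_al.OrderTwoPrym

/-- The subgroup `F²` of the free group `F` of rank `n` generated by the squares. -/
def Squares (n : ℕ) : Subgroup (FreeGroup (Fin n)) :=
  Subgroup.closure (Set.range fun x : FreeGroup (Fin n) => x ^ 2)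

/-- Let `F` be the free group of rank `n ≥ 4`, and `c` a natural number. Every subgroup `H` of
finite index of `Aut (F)` which contains the inner automorphisms and all automorphisms which are
inner modulo `γ_{c+1} (F²)` contains all automorphisms which are inner modulo `K`, for some
characteristic subgroup `K` of finite index of `F`. -/
theorem result (n : ℕ) (_ : 4 ≤ n) (c : ℕ) (H : Subgroup (MulAut (FreeGroup (Fin n))))
    (_ : H.FiniteIndex) (_ : ∀ x, MulAut.conj x ∈ H)
    (_ : ∀ φ : MulAut (FreeGroup (Fin n)),
      (∃ g, ∀ x, φ x * (g * x * g⁻¹)⁻¹ ∈ (Squares n).lowerCentralSeries c) → φ ∈ H) :
    ∃ K : Subgroup (FreeGroup (Fin n)), K.Characteristic ∧ K.FiniteIndex ∧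
      ∀ φ : MulAut (FreeGroup (Fin n)),
        (∃ g, ∀ x, φ x * (g * x * g⁻¹)⁻¹ ∈ K) → φ ∈ H := by
  rename_i hn hH hinn h
  have he : W5h84.PR.Gam n = Squares n := W5h84.PR.Gam_eq
  refine R569.CS.outer_csp (W5h84.PR.Gam n) (fun V hV h => W5h84.PR.csp_base hn V hV h) c H hH
    hinn ?_
  rw [he]
  exact h

end Pool.Agent.Results.MP_181555_al.OrderTwoPrym
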