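import Pool.Agent.W5h92.CS.Fin

/-!
# Finite quotients of `Out (F_3)` which are not seen on large classes of finite quotients of `F_3`

Let `F` be the free group of rank three and `F²` the subgroup generated by the squares. For every
`j` there is a normal subgroup `H` of finite index of `Aut (F)`, containing all automorphisms which
are inner modulo `[F², F²]` (so it is the preimage of a normal subgroup of finite index of `Out (F)`,
and it comes from the action on `F / [F², F²]`), with the following property. `H` does not contain
the group of the automorphisms acting trivially on `F / K`, hence not the kernel of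
`Aut (F) → Out (F / K)`, for all `K` which contain an intersection of finitely many characteristic
subgroups `X` of finite index such that

* `F / X` has a nilpotent-by-abelian subgroup of index `≤ j`, or
* `F / X` has no section isomorphic to the dihedral group of order `2 t`, for some `1 ≤ t ≤ j`
  (for example `F / X` is of odd order, or of order prime to `t`, or has a normal Sylow
  `2`-subgroup and `3 ≤ j`).

For `n ≥ 4` the subgroups of finite index of `Out (F_n)` containing the kernel of the action on
`F_n / [F_n², F_n²]` are congruence subgroups, with `F_n² / (F_n² ∩ K)` nilpotent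
(`OrderTwoPrym`).

Proof. Let `π : F → ℤ² ⋊ {1, -1}` map `x_0, x_1` to the basis of `ℤ²` and `x_2` to `-1`. The
automorphisms `φ` acting trivially on `F / F²` act on `π (F²)` by matrices congruent to `1` modulo
`2`. By Sanov's theorem we get a homomorphism of the group `A` of those with determinant `1` onto the
free group of rank two, which kills all `φ` which are inner modulo `[F², F²]`, and thus
`σ : A → Sym (m)`, surjective, for every `m`. Let `H` be the normal core in `Aut (F)` of the kernel
of `σ`, for a large `m`. Let `A[X]` be the group of the elements of `A` acting trivially on `F / X`.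

(1) If `F / X` has no dihedral section of order `2 t`, `t ∣ m`, there is a `u ∈ X ∩ ⟨x_0, x_2⟩`
with `π (u) = 2 k e_0`, `m ∤ k`, and `x_1 ↦ x_1 u` is in `A[X]` and its image is the `k`-th power
of a cycle of length `m`. So the normal subgroup `σ (A[X])` contains `Alt (m)`.

(2) Let `L` be normal in `F` of bounded index and `K ≤ L`, `L / K` nilpotent-by-abelian. As the
index of `A[L]` is bounded, `σ (A[L])` contains `Alt (m)`. Let `A_L[X]` be the group of the
elements of `A[L]` acting trivially on `L / X`. Let `X / Y` be a chief factor of `L / K`. It is a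
one-dimensional vector space `k_χ` over a finite field `k`, where `L` acts by a character `χ`. The
space `Z` of the cocycles of `L` with values in `k_χ` is of dimension at most the rank of `L`, and
`A_L[X]` acts on `Z`. Let `B` be the kernel of this action. If `Alt (m) ≤ σ (A_L[X])` and
`Alt (m) ≰ σ (B)`, then `Alt (m)` is a quotient of a subgroup of `GL (Z)`. This is not the case for
large `m`, as the `q`-subgroups of `GL (Z)` are commutative for `q > dim Z`, `q ≠ char k`. The map
`φ ↦ (g ↦ φ (g) g⁻¹ mod Y)` is a homomorphism of `B` to `Z` with kernel in `A_L[Y]`. So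
`Alt (m) ≤ σ (A_L[Y])`. Finally `[A_L[K], A_L[K]] ≤ A[K]`.

(3) If `σ (A[X])` and `σ (A[Y])` contain `Alt (m)`, so does `σ ([A[X], A[Y]]) ≤ σ (A[X ∩ Y])`.
-/

set_option autoImplicit false

namespace Pool.Agent.Results.MP_181555_al.RankThreePrym

/-- The subgroup `F²` of the free group `F` of rank three generated by the squares. -/
def Squares : Subgroup (FreeGroup (Fin 3)) :=
  Subgroup.closure (Set.range fun x : FreeGroup (Fin 3) => x ^ 2)

/-- `F / X` has a nilpotent-by-abelian subgroup of index `≤ j`: there is a subgroup `L` of index
`≤ j` of `F` such that `X` contains a term of the lower central series of `[L, L]`. -/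
def SmallQuotient (j : ℕ) (X : Subgroup (FreeGroup (Fin 3))) : Prop :=
  ∃ L : Subgroup (FreeGroup (Fin 3)), L.index ≠ 0 ∧ L.index ≤ j ∧
    ∃ c, ⁅L, L⁆.lowerCentralSeries c ≤ X

/-- `F / X` has a section isomorphic to the dihedral group of order `2 t`: some subgroup `R` of `F`
has a homomorphism onto the dihedral group which is trivial on `R ∩ X`. -/
def DihedralSection (X : Subgroup (FreeGroup (Fin 3))) (t : ℕ) : Prop :=
  ∃ (R : Subgroup (FreeGroup (Fin 3))) (f : R →* DihedralGroup t), Function.Surjective f ∧
    ∀ r : R, (r : FreeGroup (Fin 3)) ∈ X → f r = 1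

/-- Let `F` be the free group of rank three. For every `j` there is a normal subgroup `H` of finite
index of `Aut (F)` with: (1) `H` contains all automorphisms which are inner modulo `[F², F²]`; (2) if `K`
is a normal subgroup of finite index and `F / K` has a nilpotent-by-abelian subgroup of index
`≤ j`, there is an automorphism outside `H` acting trivially on `F / K`; (3) the same for all
subgroups `K` containing the intersection of a finite set of characteristic subgroups `X` of finite
index, such that `F / X` has a nilpotent-by-abelian subgroup of index `≤ j` or has no section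
isomorphic to the dihedral group of order `2 t`, for some `1 ≤ t ≤ j`. -/
theorem result (j : ℕ) : ∃ H : Subgroup (MulAut (FreeGroup (Fin 3))), H.Normal ∧ H.FiniteIndex ∧
    (∀ φ : MulAut (FreeGroup (Fin 3)),
      (∃ g, ∀ x, φ x * (g * x * g⁻¹)⁻¹ ∈ ⁅Squares, Squares⁆) → φ ∈ H) ∧
    (∀ K : Subgroup (FreeGroup (Fin 3)), K.Normal → K.FiniteIndex → SmallQuotient j K →
      ∃ φ : MulAut (FreeGroup (Fin 3)), φ ∉ H ∧ ∀ x, φ x * x⁻¹ ∈ K) ∧
    ∀ s : Finset (Subgroup (FreeGroup (Fin 3))),
      (∀ X ∈ s, X.Characteristic ∧ X.FiniteIndex ∧
        (SmallQuotient j X ∨ ∃ t, 1 ≤ t ∧ t ≤ j ∧ ¬ DihedralSection X t)) →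
      ∀ K : Subgroup (FreeGroup (Fin 3)), s.inf id ≤ K →
        ∃ φ : MulAut (FreeGroup (Fin 3)), φ ∉ H ∧ ∀ x, φ x * x⁻¹ ∈ K := by
  obtain ⟨n, hn, h1, h2⟩ := Pool.Agent.W5h92.CS.final j
  refine ⟨(Pool.Agent.W5h92.CS.HH n).normalCore, inferInstance, inferInstance, ?_, ?_, ?_⟩
  · rintro φ ⟨g, hg⟩
    exact Pool.Agent.W5h92.CS.inner_mem_core n φ g hg
  · intro K hK hKf hS
    obtain ⟨φ, hφ1, hφ2⟩ := Pool.Agent.W5h92.CS.exists_out n hn K (h1 K hK hKf hS)
    exact ⟨φ, Pool.Agent.W5h92.CS.not_mem_core n φ hφ1, hφ2⟩
  · intro s hs K hK
    obtain ⟨-, h3⟩ := Pool.Agent.W5h92.CS.inter_all n hn s (by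
      intro X hX
      obtain ⟨hc, hf, h⟩ := hs X hX
      refine ⟨hc, ?_⟩
      rcases h with h | h
      · exact h1 X inferInstance hf h
      · exact h2 X hc h)
    obtain ⟨φ, hφ1, hφ2⟩ := Pool.Agent.W5h92.CS.exists_out n hn _ h3
    exact ⟨φ, Pool.Agent.W5h92.CS.not_mem_core n φ hφ1, fun x => hK (hφ2 x)⟩

end Pool.Agent.Results.MP_181555_al.RankThreePrym
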