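import Mathlib
import Pool.Agent.W7h60.QQ.Fin
import Pool.Agent.W7h60.QR.Ring
import Pool.Agent.W7h60.QR.Cong

set_option autoImplicit false

/-! Actions of `Aut(F_n)` on modules with fewer than about `n ^ 2 / 2` generators over arbitrary
commutative rings: all finite images are congruence quotients. -/

namespace Pool.Agent.Results.MP_181555_al.SmallRankQuotients

open Pool.Agent.W7h60.QQ Pool.Agent.W7h60.QR Pool.Agent.Helper156.OF

universe u v

/-- `τ` is a transvection: `x i ↦ x i * x j` for some `i ≠ j`, the other generators are fixed. -/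
def IsTransvection {n : ℕ} (τ : MulAut (FreeGroup (Fin n))) : Prop :=
  ∃ i j : Fin n, i ≠ j ∧ τ (FreeGroup.of i) = FreeGroup.of i * FreeGroup.of j ∧
    ∀ k, k ≠ i → τ (FreeGroup.of k) = FreeGroup.of k

/-- `ψ` acts trivially on `F_n / C`. -/
def TrivialMod {n : ℕ} (C : Subgroup (FreeGroup (Fin n))) (ψ : MulAut (FreeGroup (Fin n))) :
    Prop :=
  ∀ x : FreeGroup (Fin n), ψ x * x⁻¹ ∈ C

/-- `ψ` acts on `F_n / C` as an inner automorphism. -/
def InnerMod {n : ℕ} (C : Subgroup (FreeGroup (Fin n))) (ψ : MulAut (FreeGroup (Fin n))) : Prop :=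
  ∃ g : FreeGroup (Fin n), ∀ x : FreeGroup (Fin n), ψ x * (g * x * g⁻¹)⁻¹ ∈ C

/-- the normal subgroup `N` of `Aut(F_n)` has finite index and is a congruence subgroup with
respect to `C`; if it contains the inner automorphisms, then also in `Out(F_n)` -/
def CongruenceFor {n : ℕ} (C : Subgroup (FreeGroup (Fin n)))
    (N : Subgroup (MulAut (FreeGroup (Fin n)))) : Prop :=
  N.FiniteIndex ∧ (∀ ψ, TrivialMod C ψ → ψ ∈ N) ∧
    ((∀ g : FreeGroup (Fin n), MulAut.conj g ∈ N) → ∀ ψ, InnerMod C ψ → ψ ∈ N)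

/-- The `A`-module `M` is generated by `d` elements. -/
def GeneratedBy (d : ℕ) (A : Type u) [CommRing A] (M : Type v) [AddCommGroup M] [Module A M] :
    Prop :=
  ∃ g : Fin d → M, Submodule.span A (Set.range g) = ⊤

theorem congruence_of {n : ℕ} {C : Subgroup (FreeGroup (Fin n))} (hC : C.Characteristic)
    (hf : C.FiniteIndex) {N : Subgroup (MulAut (FreeGroup (Fin n)))}
    (h : ∀ ψ : MulAut (FreeGroup (Fin n)), TrivialMod C ψ → ψ ∈ N) : CongruenceFor C N := by
  refine ⟨fin_index hC hf h, h, ?_⟩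
  rintro hinn ψ ⟨g, hg⟩
  have h1 : ψ * (MulAut.conj g)⁻¹ ∈ N := by
    apply h
    intro x
    have := hg (g⁻¹ * x * g)
    rw [show g * (g⁻¹ * x * g) * g⁻¹ = x by group] at this
    have e : (ψ * (MulAut.conj g)⁻¹) x = ψ (g⁻¹ * x * g) := by
      rw [← map_inv, MulAut.mul_apply, MulAut.conj_apply, inv_inv]
    rw [e]
    exact this
  have h2 := N.mul_mem h1 (hinn g)
  rwa [inv_mul_cancel_right] at h2

theorem one_add_pow {B : Type*} [Ring B] {z : B} (hz : z * z = 0) (k : ℕ) :
    (1 + z) ^ k = 1 + (k : ℤ) • z := by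
  induction k with
  | zero => simp
  | succ k ih =>
    rw [pow_succ, ih, mul_add, add_mul, add_mul, smul_mul_assoc, smul_mul_assoc, hz, smul_zero,
      one_mul, one_mul, add_zero, mul_one]
    push_cast
    rw [add_smul, one_smul]
    abel

theorem char_inf {n : ℕ} {C D : Subgroup (FreeGroup (Fin n))} (hC : C.Characteristic)
    (hD : D.Characteristic) : (C ⊓ D).Characteristic := by
  rw [Subgroup.characteristic_iff_le_comap] at hC hD ⊢
  intro φ x hx
  exact ⟨hC φ hx.1, hD φ hx.2⟩

theorem mg_of_mem {n p : ℕ} {ψ : MulAut (FreeGroup (Fin n))} (h : ∀ x, ψ x * x⁻¹ ∈ CC n p) :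
    ∀ i, mg (R := ZMod p) (ψ (FreeGroup.of i)) = mg (FreeGroup.of i) := by
  intro i
  have := mem_CC.1 (h (FreeGroup.of i)) mg
  rw [map_mul, map_inv, mul_inv_eq_one] at this
  exact this

/-- Let `n` and `m > 0` be natural numbers. There is a characteristic subgroup `C` of finite index
in `F_n` with the following property. Let `d < binom (n / 2 - 5) 2`, or `48 ≤ n` and
`d < binom (n - 6) 2`. Let `M` be a module with `d` generators over a commutative ring `A`, and let
`f : Aut(F_n) → Aut_A(M)` be a homomorphism. Assume that `m` kills `M`, or that `f τ ^ m = 1` for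
the transvections `τ`, or that the image of `f` is finite and `m` kills the additive torsion of
`M`. Then the image of `f` is finite and the kernel of `f` is a congruence subgroup with respect to
`C`, also in `Out(F_n)` if `f` kills the inner automorphisms. -/
theorem result :
    ∀ n m : ℕ, 0 < m → ∃ C : Subgroup (FreeGroup (Fin n)), C.Characteristic ∧ C.FiniteIndex ∧
      ∀ d : ℕ, (d < (n / 2 - 5).choose 2 ∨ (48 ≤ n ∧ d < (n - 6).choose 2)) →
        ∀ (A : Type u) [CommRing A] (M : Type v) [AddCommGroup M] [Module A M],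
          GeneratedBy d A M → ∀ f : MulAut (FreeGroup (Fin n)) →* (M ≃ₗ[A] M),
            ((∀ x : M, m • x = 0) ∨ (∀ τ, IsTransvection τ → f τ ^ m = 1) ∨
              (Finite f.range ∧ ∀ x : M, IsOfFinAddOrder x → m • x = 0)) →
            CongruenceFor C f.ker := by
  intro n m hm0
  have : NeZero m := ⟨hm0.ne'⟩
  have : NeZero 3 := ⟨by norm_num⟩
  have hC : (CC n m ⊓ CC n 3).Characteristic := char_inf CC_char CC_char
  have hf1 : (CC n m).FiniteIndex := CC_fin
  have hf2 : (CC n 3).FiniteIndex := CC_fin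
  have hfi : (CC n m ⊓ CC n 3).FiniteIndex := inferInstance
  refine ⟨CC n m ⊓ CC n 3, hC, hfi, ?_⟩
  intro d hd A _ M _ _ hgen f hcase
  obtain ⟨g, hg⟩ := hgen
  have hd' : Bd n d := hd
  have h14 := hd'.card
  let ρ : MulAut (FreeGroup (Fin n)) →* Module.End A M :=
    (LinearEquiv.automorphismGroup.toLinearMapMonoidHom (R := A) (M := M)).comp f
  have hρ : ∀ (φ : MulAut (FreeGroup (Fin n))) (v : M), ρ φ v = f φ v := fun _ _ => rfl
  have H : DRel ρ := general hd' g hg ρ
  have hcard : Fintype.card (Fin n) = n := Fintype.card_fin n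
  have S : SRel ρ := H.srel (by omega)
  have R := rel_aut (α := Fin n)
  -- powers of the transvections
  have hpow : ∀ k : ℕ, (∀ τ, IsTransvection τ → f τ ^ k = 1) →
      ∀ x a : Lt (Fin n), x.1 ≠ a.1 → (k : ℤ) • N ρ x a = 0 := by
    intro k hk x a hxa
    have hij : (⟨0, by omega⟩ : Fin n) ≠ ⟨1, by omega⟩ := by
      intro h
      have := congrArg Fin.val h
      simp at this
    set i : Fin n := ⟨0, by omega⟩
    set j : Fin n := ⟨1, by omega⟩
    have h0 : f (eAut ((i, true) : Lt (Fin n)) (j, true)) ^ k = 1 := by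
      apply hk
      refine ⟨i, j, hij, ?_, ?_⟩
      · rw [aut_R hij, if_pos rfl]
      · intro l hl
        rw [aut_R hij, if_neg hl]
    obtain ⟨s1, c1, -⟩ := sp_step (1 : SP (Fin n)) (i, true) x
    obtain ⟨s2, c2, d2⟩ := sp_step s1 (j, true) a
    have c3 : (s2 : Equiv.Perm (Lt (Fin n))) (i, true) = x := by
      rw [d2 _ hij (by rw [c1]; exact hxa), c1]
    have h3 := R.e0 s2 (i, true) (j, true)
    rw [c2, c3] at h3
    have h1 : f (eAut x a) ^ k = 1 := by
      rw [← h3, map_mul, map_mul, map_inv, conj_pow, h0, mul_one, mul_inv_cancel]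
    have h2 : ρ (eAut x a) ^ k = 1 := by
      have : ρ (eAut x a) ^ k = ρ (eAut x a ^ k) := (map_pow ρ _ _).symm
      rw [this]
      apply LinearMap.ext
      intro v
      rw [hρ, map_pow, h1]
      rfl
    rw [rho_eq, one_add_pow (S.sq x a hxa)] at h2
    exact left_eq_add.1 h2.symm
  have hmN : ∀ x a : Lt (Fin n), x.1 ≠ a.1 → (m : ℤ) • N ρ x a = 0 := by
    rcases hcase with h | h | ⟨hfin, h⟩
    · intro x a _
      apply LinearMap.ext
      intro v
      show (m : ℤ) • N ρ x a v = 0
      rw [natCast_zsmul]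
      exact h _
    · exact hpow m h
    · intro x a hxa
      have hk : ∀ τ, IsTransvection τ → f τ ^ Nat.card f.range = 1 := by
        intro τ _
        have h2 : (⟨f τ, τ, rfl⟩ : f.range) ^ Nat.card f.range = 1 := pow_card_eq_one'
        exact congrArg Subtype.val h2
      have h1 := hpow _ hk x a hxa
      apply LinearMap.ext
      intro v
      show (m : ℤ) • N ρ x a v = 0
      rw [natCast_zsmul]
      apply h
      rw [isOfFinAddOrder_iff_nsmul_eq_zero]
      refine ⟨Nat.card f.range, Nat.card_pos, ?_⟩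
      have h2 := LinearMap.congr_fun h1 v
      rw [← natCast_zsmul]
      exact h2
  refine congruence_of hC hfi fun ψ hψ => ?_
  have : Nonempty (Fin n) := ⟨⟨0, by omega⟩⟩
  have m1 := mg_of_mem (p := m) (ψ := ψ) fun x => (hψ x).1
  have m2 := mg_of_mem (p := 3) (ψ := ψ) fun x => (hψ x).2
  have hS : ψ ∈ Sg (Fin n) := mem_Sg (R := ZMod 3) (by decide) m2
  have hψ1 : ρ ψ = 1 := triv_mod S (by omega) hmN hS m1
  show f ψ = 1
  apply LinearEquiv.ext
  intro v
  rw [← hρ, hψ1]
  rfl

end Pool.Agent.Results.MP_181555_al.SmallRankQuotients
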